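import Pool.Agent.Lib.MP_9c288a_pr.Main

set_option autoImplicit false

namespace Pool.Agent.Results.MP_9c288a_pr.TwoTrees

open Pool.Agent.Lib.MP_9c288a_pr

/-- Uniform tree-rooted planar maps with a given side pattern and `k` further spanning trees: the
left and right contour walks are conditionally independent given the integrated height functions
modulo linear functions. -/
theorem result (N k : ℕ) (τ : Fin N → Bool) (E F : Set (ℕ → ℤ))
    (γ : Fin k → Fin (N + 1) → Fin (N + 1) → ℤ) :
    {ω ∈ Omega k τ | G ω = γ ∧ walk ω.1 true ∈ E ∧ walk ω.1 false ∈ F}.ncard *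
        {ω ∈ Omega k τ | G ω = γ}.ncard =
      {ω ∈ Omega k τ | G ω = γ ∧ walk ω.1 true ∈ E}.ncard *
        {ω ∈ Omega k τ | G ω = γ ∧ walk ω.1 false ∈ F}.ncard :=
  cond_indep k τ E F γ

end Pool.Agent.Results.MP_9c288a_pr.TwoTrees
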